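import Pool.Agent.L5helper68.AH.Real

/-!
# Subquotients of finite direct sums of simple objects
-/

set_option autoImplicit false

open CategoryTheory CategoryTheory.Limits Pool.Agent.L5helper68.GO Pool.Agent.L5helper68.AH

namespace Pool.Agent.L5helper68.SS

universe v u

variable {C : Type u} [Category.{v} C] [Abelian C]

lemma sos_iso {M N : C} (e : M ≅ N) (h : SumOfSimples M) : SumOfSimples N := by
  cases h with
  | zero hM => exact .zero (hM.of_iso e.symm)
  | add hS hM f => exact .add hS hM (e.symm ≪≫ f)

/-- A subobject of a finite direct sum of simple objects is a direct summand and a finite direct sum of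
simple objects. -/
theorem sos_sub {N : C} (hN : SumOfSimples N) : ∀ {W : C} (i : W ⟶ N) [Mono i],
    SumOfSimples W ∧ ∃ r : N ⟶ W, i ≫ r = 𝟙 W := by
  induction hN with
  | @zero M hM =>
    intro W i _
    have hW : IsZero W := IsZero.of_mono i hM
    exact ⟨.zero hW, 0, hW.eq_of_src _ _⟩
  | @add S M N hS _ e ih =>
    intro W i _
    let a : W ⟶ S := i ≫ e.hom ≫ biprod.fst
    let b : W ⟶ M := i ≫ e.hom ≫ biprod.snd
    have hab : a ≫ biprod.inl ≫ e.inv + b ≫ biprod.inr ≫ e.inv = i := by
      have := biprod.total (X := S) (Y := M)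
      calc _ = i ≫ e.hom ≫ (biprod.fst ≫ biprod.inl + biprod.snd ≫ biprod.inr) ≫ e.inv := by
            simp only [a, b, Category.assoc, Preadditive.add_comp, Preadditive.comp_add]
        _ = _ := by rw [this]; simp
    by_cases ha : a = 0
    · have hb : Mono b := by
        rw [ha, zero_comp, zero_add] at hab
        have hm : Mono (b ≫ biprod.inr ≫ e.inv) := by
          rw [hab]
          infer_instance
        exact mono_of_mono b (biprod.inr ≫ e.inv)
      obtain ⟨h1, r, hr⟩ := ih b
      refine ⟨h1, e.hom ≫ biprod.snd ≫ r, ?_⟩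
      rw [← hr]
      simp only [b, Category.assoc]
    · have hae : Epi a := epi_of_nonzero_to_simple ha
      let k := kernel.ι a
      have hk : Mono (k ≫ b) := by
        refine Preadditive.mono_of_cancel_zero _ fun {Z} g hg => ?_
        have h1 : g ≫ k ≫ i = 0 := by
          rw [← hab, Preadditive.comp_add, Preadditive.comp_add]
          have h2 : k ≫ a = 0 := kernel.condition a
          have h3 : g ≫ k ≫ b = 0 := hg
          have h4 : g ≫ k ≫ a ≫ biprod.inl ≫ e.inv = 0 := by
            rw [← Category.assoc k, h2, zero_comp, comp_zero]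
          have h5 : g ≫ k ≫ b ≫ biprod.inr ≫ e.inv = 0 := by
            rw [← Category.assoc k, ← Category.assoc g, h3, zero_comp]
          rw [h4, h5, add_zero]
        have h6 : Mono (k ≫ i) := mono_comp _ _
        rw [← cancel_mono (k ≫ i), zero_comp]
        exact h1
      obtain ⟨h1, r, hr⟩ := ih (k ≫ b)
      let ρ : W ⟶ kernel a := b ≫ r
      have hρ : k ≫ ρ = 𝟙 _ := by
        rw [← hr, Category.assoc]
      -- the short exact sequence `0 → ker a → W → S → 0` splits
      let SC : ShortComplex C := ShortComplex.mk k a (kernel.condition a)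
      have hx : SC.Exact := ShortComplex.exact_kernel a
      let sp : SC.Splitting := ShortComplex.Splitting.ofExactOfRetraction SC hx ρ hρ hae
      have hsρ : sp.s ≫ ρ = 0 := sp.s_r
      have hsa : sp.s ≫ a = 𝟙 S := sp.s_g
      have hid : ρ ≫ k + a ≫ sp.s = 𝟙 W := sp.id
      refine ⟨.add hS h1 ?_, e.hom ≫ biprod.snd ≫ r ≫ k + e.hom ≫ biprod.fst ≫ sp.s, ?_⟩
      · refine ⟨biprod.lift a ρ, biprod.desc sp.s k, ?_, ?_⟩
        · rw [biprod.lift_desc, add_comm]
          exact hid
        · apply biprod.hom_ext'
          · apply biprod.hom_ext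
            · simp [hsa]
            · simp [hsρ]
          · apply biprod.hom_ext
            · have : k ≫ a = 0 := kernel.condition a
              simp [this]
            · simp [hρ]
      · rw [Preadditive.comp_add, ← hid]
        congr 1
        · simp only [ρ, b, Category.assoc]
        · simp only [a, Category.assoc]

/-- A subquotient of a finite direct sum of simple objects is a finite direct sum of simple objects. -/
theorem sos_subquotient {M N : C} (hN : SumOfSimples N) (h : IsSubquotient M N) :
    SumOfSimples M := by
  obtain ⟨W, i, p, hi, hp⟩ := h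
  obtain ⟨hW, -⟩ := sos_sub hN i
  obtain ⟨-, r, hr⟩ := sos_sub hW (kernel.ι p)
  let SC : ShortComplex C := ShortComplex.mk (kernel.ι p) p (kernel.condition p)
  have hx : SC.Exact := ShortComplex.exact_kernel p
  let sp : SC.Splitting := ShortComplex.Splitting.ofExactOfRetraction SC hx r hr hp
  have hsp : sp.s ≫ p = 𝟙 M := sp.s_g
  have : Mono sp.s := mono_of_mono_fac hsp
  exact (sos_sub hW sp.s).1

end Pool.Agent.L5helper68.SS
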