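import Pool.Agent.L5helper68.SS.PreD

/-!
# Quadratic presentations with few coefficients over a field
-/

set_option autoImplicit false

open MvPolynomial Pool.Agent.Y116.UV

namespace Pool.Agent.L5helper68.SS

section base

variable {R : Type} [CommRing R] {S : Set R} (h0 : (0 : R) ∈ S) (h1 : (1 : R) ∈ S)

/-- The presentation of a polynomial ring: one more variable with the value `-1`. -/
noncomputable def pbase (n : ℕ) : PS S (MvPolynomial (Fin n) R) where
  V := Option (Fin n)
  fin := inferInstance
  φ := aeval fun o => o.elim (-1) X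
  G := {X none + 1}
  finG := Set.finite_singleton _
  surj := fun q => ⟨rename some q, by
    rw [aeval_rename]
    have : ((fun o : Option (Fin n) => o.elim (-1 : MvPolynomial (Fin n) R) X) ∘ some) = X := rfl
    rw [this, aeval_X_left_apply]⟩
  ker := by
    apply le_antisymm
    · intro q hq
      let J : Ideal (MvPolynomial (Option (Fin n)) R) := Ideal.span {X none + 1}
      let ψ : MvPolynomial (Option (Fin n)) R →ₐ[R] MvPolynomial (Fin n) R :=
        aeval fun o => o.elim (-1) X
      have h2 : Ideal.Quotient.mkₐ R J = ((Ideal.Quotient.mkₐ R J).comp (rename some)).comp ψ := by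
        apply MvPolynomial.algHom_ext
        intro o
        rw [AlgHom.comp_apply, AlgHom.comp_apply]
        have h3 : ψ (X o) = o.elim (-1) X := aeval_X _ _
        rw [h3]
        match o with
        | none =>
          have h4 : Ideal.Quotient.mkₐ R J (X none + 1) = 0 :=
            Ideal.Quotient.eq_zero_iff_mem.mpr (Ideal.subset_span rfl)
          rw [map_add, map_one] at h4
          change _ = Ideal.Quotient.mkₐ R J (rename some (-1))
          rw [map_neg, map_one, map_neg, map_one]
          linear_combination h4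
        | some v =>
          change _ = Ideal.Quotient.mkₐ R J (rename some (X v))
          rw [rename_X]
      have h3 : q - rename some (ψ q) ∈ J := by
        rw [← Ideal.Quotient.eq_zero_iff_mem, map_sub, sub_eq_zero]
        exact DFunLike.congr_fun h2 q
      have h4 : ψ q = 0 := hq
      rw [h4, map_zero, sub_zero] at h3
      exact h3
    · rw [Ideal.span_le, Set.singleton_subset_iff]
      change aeval _ (X none + 1) = 0
      rw [map_add, map_one, aeval_X]
      change (-1 : MvPolynomial (Fin n) R) + 1 = 0
      ring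
  coef := by
    rintro g rfl m
    have h2 : (X none + 1 : MvPolynomial (Option (Fin n)) R) =
        monomial (Finsupp.single none 1) 1 + monomial 0 1 := rfl
    rw [h2]
    exact coef_two h0 (by rw [Ne, Finsupp.single_eq_zero]; exact one_ne_zero) h1 h1 m
  deg := by
    rintro g rfl
    refine (totalDegree_add _ _).trans (max_le ((tdX _).trans (by norm_num)) ?_)
    rw [totalDegree_one]
    norm_num

lemma pbase_neg (n : ℕ) : -1 ∈ (pbase h0 h1 n).marks := ⟨none, by
  change aeval _ (X none) = _
  rw [aeval_X]
  rfl⟩

lemma pbase_X (n : ℕ) (i : Fin n) : X i ∈ (pbase h0 h1 n).marks := ⟨some i, by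
  change aeval _ (X (some i)) = _
  rw [aeval_X]
  rfl⟩

end base

section field

variable {K : Type} [Field K] {S : Set K} (h0 : (0 : K) ∈ S) (h1 : (1 : K) ∈ S)
  {A : Type} [CommRing A] [Algebra K A] {P0 : PS S A}

include h0 h1

lemma rs_inv (hm : -1 ∈ P0.marks) {c : K} (hc : algebraMap K A c ∈ RS P0) :
    algebraMap K A c⁻¹ ∈ RS P0 := by
  by_cases hc0 : c = 0
  · rw [hc0, inv_zero, ← hc0]
    exact hc
  intro P hP
  obtain ⟨P1, k1, i, hi⟩ := hc P hP
  obtain ⟨e, he⟩ := (hP.trans k1) hm
  have hi' : P1.φ (X i) = algebraMap K A c := hi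
  have he' : P1.φ (X e) = -1 := he
  let p : MvPolynomial P1.V K := algebraMap K _ c⁻¹
  let r : MvPolynomial (Option P1.V) K := X (some i) * X none + X (some e)
  have hp : P1.φ p = algebraMap K A c⁻¹ := AlgHom.commutes _ _
  have hcc : algebraMap K A c * algebraMap K A c⁻¹ = 1 := by
    rw [← map_mul, mul_inv_cancel₀ hc0, map_one]
  have k0 : eφ P1 p r = 0 := by
    change eφ P1 p (X (some i) * X none + X (some e)) = 0
    rw [map_add, map_mul, eφ_none, eφ_some, eφ_some, hi', he', hp, hcc]
    ring
  have k2 : X none - rename some p ∈ Ideal.span (eG P1 r) := by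
    have g1 : rename some (X i * p - 1 : MvPolynomial P1.V K) ∈ Ideal.span (eG P1 r) := by
      apply ren_mem
      rw [map_sub, map_mul, map_one, hi', hp, hcc, sub_self]
    have g2 : rename some (X e + 1 : MvPolynomial P1.V K) ∈ Ideal.span (eG P1 r) := by
      apply ren_mem
      rw [map_add, map_one, he']
      ring
    have g3 : r ∈ Ideal.span (eG P1 r) := Ideal.subset_span (Or.inr rfl)
    have g4 := Ideal.sub_mem _ (Ideal.sub_mem _ (Ideal.mul_mem_left _ (rename some p) g3)
      (Ideal.mul_mem_left _ (X none) g1)) (Ideal.mul_mem_left _ (rename some p) g2)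
    have g5 : rename some p * r - X none * rename some (X i * p - 1 : MvPolynomial P1.V K) -
        rename some p * rename some (X e + 1 : MvPolynomial P1.V K) = X none - rename some p := by
      change rename some p * (X (some i) * X none + X (some e)) - _ - _ = _
      rw [map_sub, map_mul, map_add, map_one, rename_X, rename_X]
      ring
    rwa [g5] at g4
  have k3 : ∀ m, coeff m r ∈ S := by
    intro m
    have g1 : r = monomial (Finsupp.single (some i) 1 + Finsupp.single none 1) 1 +
        monomial (Finsupp.single (some e) 1) 1 := by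
      change X (some i) * X none + X (some e) = _
      rw [X, X, X, monomial_mul, one_mul]
    rw [g1]
    refine coef_two h0 ?_ h1 h1 m
    intro h
    have h6 := congrArg Finsupp.degree h
    rw [map_add, Finsupp.degree_single, Finsupp.degree_single, Finsupp.degree_single] at h6
    omega
  have k4 : r.totalDegree ≤ 2 :=
    (totalDegree_add _ _).trans (max_le ((totalDegree_mul _ _).trans (add_le_add (tdX _) (tdX _)))
      ((tdX _).trans (by norm_num)))
  refine ⟨P1.ext p r k0 k2 h0 k3 k4, k1.trans (ext_marks P1 p r k0 k2 h0 k3 k4), ?_⟩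
  rw [← hp]
  exact ext_mem P1 p r k0 k2 h0 k3 k4

lemma rs_field (hm : -1 ∈ P0.marks) {T : Set K} (hT : Subfield.closure T = ⊤) (hTS : T ⊆ S)
    (c : K) : algebraMap K A c ∈ RS P0 := by
  have hc : c ∈ Subfield.closure T := by
    rw [hT]
    trivial
  induction hc using Subfield.closure_induction with
  | mem x hx => exact rs_const h0 h1 hm (hTS hx)
  | one => exact rs_const h0 h1 hm h1
  | add x y _ _ hx hy =>
    rw [map_add]
    exact rs_add h0 h1 hm hx hy
  | neg x _ hx =>
    have := rs_mul h0 h1 hm (rs_mark hm) hx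
    rwa [neg_one_mul, ← map_neg] at this
  | inv x _ hx => exact rs_inv h0 h1 hm hx
  | mul x y _ _ hx hy =>
    rw [map_mul]
    exact rs_mul h0 h1 hm hx hy

lemma rs_all {T : Set K} (hT : Subfield.closure T = ⊤) (hTS : T ⊆ S) (n : ℕ)
    (f : MvPolynomial (Fin n) K) : f ∈ RS (pbase h0 h1 n) := by
  have hm := pbase_neg h0 h1 n
  induction f using MvPolynomial.induction_on with
  | C r => exact rs_field h0 h1 hm hT hTS r
  | add p q hp hq => exact rs_add h0 h1 hm hp hq
  | mul_X p i hp => exact rs_mul h0 h1 hm hp (rs_mark (pbase_X h0 h1 n i))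

lemma rs_set {T : Set K} (hT : Subfield.closure T = ⊤) (hTS : T ⊆ S) (n : ℕ)
    (F : Finset (MvPolynomial (Fin n) K)) :
    ∃ P : PS S (MvPolynomial (Fin n) K), (pbase h0 h1 n).marks ⊆ P.marks ∧ ∀ f ∈ F, f ∈ P.marks := by
  classical
  induction F using Finset.induction_on with
  | empty => exact ⟨pbase h0 h1 n, le_rfl, by simp⟩
  | insert f F _ ih =>
    obtain ⟨P, h1', h2⟩ := ih
    obtain ⟨P', h3, h4⟩ := rs_all h0 h1 hT hTS n f P h1'
    refine ⟨P', h1'.trans h3, fun g hg => ?_⟩
    rcases Finset.mem_insert.mp hg with rfl | hg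
    · exact h4
    · exact h3 (h2 g hg)

/-- If the field `K` is generated by a subset of `S`, then all `K`-algebras of finite type have
presentations by polynomials of degree at most two with coefficients in `S`. -/
theorem exists_PS {T : Set K} (hT : Subfield.closure T = ⊤) (hTS : T ⊆ S) (A : Type) [CommRing A]
    [Algebra K A] [Algebra.FiniteType K A] : ∃ P : PS S A, -1 ∈ P.marks := by
  classical
  obtain ⟨n, π, hπ⟩ := Algebra.FiniteType.iff_quotient_mvPolynomial''.mp
    (inferInstance : Algebra.FiniteType K A)
  obtain ⟨F, hF⟩ := (isNoetherianRing_iff_ideal_fg _).mp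
    (inferInstance : IsNoetherianRing (MvPolynomial (Fin n) K)) (RingHom.ker π)
  obtain ⟨P, hP0, hP⟩ := rs_set h0 h1 hT hTS n F
  obtain ⟨e, he⟩ := hP0 (pbase_neg h0 h1 n)
  have hne : Nonempty P.V := ⟨e⟩
  choose! v hv using hP
  exact ⟨{
    V := P.V
    fin := P.fin
    φ := π.comp P.φ
    G := P.G ∪ (fun f => X (v f)) '' (F : Set (MvPolynomial (Fin n) K))
    finG := P.finG.union (F.finite_toSet.image _)
    surj := fun a => by
      obtain ⟨b, rfl⟩ := hπ a
      obtain ⟨c, rfl⟩ := P.surj b
      exact ⟨c, rfl⟩
    ker := by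
      have h1 : RingHom.ker (π.comp P.φ) = Ideal.comap (P.φ : MvPolynomial P.V K →+* _)
          (RingHom.ker π) := rfl
      have h2 : RingHom.ker π = Ideal.map (P.φ : MvPolynomial P.V K →+* _)
          (Ideal.span ((fun f => X (v f)) '' (F : Set (MvPolynomial (Fin n) K)))) := by
        rw [Ideal.map_span, ← hF, Set.image_image]
        congr 1
        ext x
        constructor
        · intro hx
          exact ⟨x, hx, hv x hx⟩
        · rintro ⟨y, hy, rfl⟩
          have : (P.φ : MvPolynomial P.V K →+* _) (X (v y)) = y := hv y hy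
          change (P.φ : MvPolynomial P.V K →+* MvPolynomial (Fin n) K) (X (v y)) ∈ _
          rw [this]
          exact hy
      have h3 : RingHom.ker (P.φ : MvPolynomial P.V K →+* MvPolynomial (Fin n) K) =
          Ideal.span P.G := P.ker
      rw [h1, h2, Ideal.comap_map_of_surjective'
        (P.φ : MvPolynomial P.V K →+* MvPolynomial (Fin n) K) P.surj, Ideal.span_union, sup_comm,
        h3]
    coef := by
      rintro g (hg | ⟨f, _, rfl⟩) m
      · exact P.coef g hg m
      · change coeff m (X (v f)) ∈ S
        rw [coeff_X]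
        split_ifs
        · exact h1
        · exact h0
    deg := by
      rintro g (hg | ⟨f, _, rfl⟩)
      · exact P.deg g hg
      · exact (tdX _).trans (by norm_num) }, e, by
    have h4 : P.φ (X e) = -1 := he
    change π (P.φ (X e)) = -1
    rw [h4, map_neg, map_one]⟩

/-- The number of variables can be arbitrarily large. -/
theorem exists_PS_large {T : Set K} (hT : Subfield.closure T = ⊤) (hTS : T ⊆ S) (A : Type)
    [CommRing A] [Algebra K A] [Algebra.FiniteType K A] (N : ℕ) :
    ∃ P : PS S A, -1 ∈ P.marks ∧ N ≤ Nat.card P.V := by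
  induction N with
  | zero =>
    obtain ⟨P, hP⟩ := exists_PS h0 h1 hT hTS A
    exact ⟨P, hP, Nat.zero_le _⟩
  | succ N ih =>
    obtain ⟨P, ⟨e, he⟩, hN⟩ := ih
    have he' : P.φ (X e) = -1 := he
    have k0 : eφ P 0 (X (some e) * X none + rename some 0) = 0 := by
      rw [map_add, map_mul, eφ_rename, eφ_none, eφ_some, he']
      ring
    have k1 : X none - rename some 0 ∈ Ideal.span (eG P (X (some e) * X none + rename some 0)) := by
      have h2 : rename some (X e + 1 : MvPolynomial P.V K) ∈
          Ideal.span (eG P (X (some e) * X none + rename some 0)) := by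
        apply ren_mem
        rw [map_add, map_one, he']
        ring
      have h3 : (X (some e) * X none + rename some 0 : MvPolynomial (Option P.V) K) ∈
          Ideal.span (eG P (X (some e) * X none + rename some 0)) :=
        Ideal.subset_span (Or.inr rfl)
      have h4 := Ideal.sub_mem _ (Ideal.mul_mem_left _ (X none) h2) h3
      have h5 : X none * rename some (X e + 1 : MvPolynomial P.V K) -
          (X (some e) * X none + rename some 0) = X none - rename some 0 := by
        rw [map_add, map_one, rename_X]
        ring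
      rwa [h5] at h4
    have k2 : ∀ m, coeff m (X (some e) * X none + rename some 0 : MvPolynomial (Option P.V) K) ∈ S := by
      intro m
      classical
      rw [map_zero, add_zero, X, X, monomial_mul, one_mul, coeff_monomial]
      split_ifs
      · exact h1
      · exact h0
    have k3 : (X (some e) * X none + rename some 0 : MvPolynomial (Option P.V) K).totalDegree ≤ 2 := by
      rw [map_zero, add_zero]
      exact (totalDegree_mul _ _).trans (add_le_add (tdX _) (tdX _))
    refine ⟨P.ext 0 _ k0 k1 h0 k2 k3, ext_marks P 0 _ k0 k1 h0 k2 k3 ⟨e, he⟩, ?_⟩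
    have := P.fin
    change N + 1 ≤ Nat.card (Option P.V)
    rw [Finite.card_option]
    omega

/-- If the field `K` is generated by a subset of `S`, then every `K`-algebra of finite type is the quotient
of a polynomial ring in `n ≥ N` variables by finitely many polynomials of degree at most two with
coefficients in `S`. -/
theorem quadratic_gen {T : Set K} (hT : Subfield.closure T = ⊤) (hTS : T ⊆ S) (A : Type)
    [CommRing A] [Algebra K A] [Algebra.FiniteType K A] (N : ℕ) :
    ∃ (n r : ℕ) (q : Fin r → MvPolynomial (Fin n) K), N ≤ n ∧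
      (∀ l, (q l).totalDegree ≤ 2 ∧ ∀ m, coeff m (q l) ∈ S) ∧
      Nonempty ((MvPolynomial (Fin n) K ⧸ Ideal.span (Set.range q)) ≃ₐ[K] A) := by
  classical
  obtain ⟨P, -, hP⟩ := exists_PS_large h0 h1 hT hTS A N
  have := P.fin
  have := Fintype.ofFinite P.V
  let e : P.V ≃ Fin (Fintype.card P.V) := Fintype.equivFin P.V
  let E : MvPolynomial P.V K ≃ₐ[K] MvPolynomial (Fin (Fintype.card P.V)) K := renameEquiv K e
  let G' := P.finG.toFinset
  let q : Fin G'.card → MvPolynomial (Fin (Fintype.card P.V)) K := fun l => E (G'.equivFin.symm l).1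
  have hr : Set.range q = E '' P.G := by
    ext x
    constructor
    · rintro ⟨l, rfl⟩
      exact ⟨_, P.finG.mem_toFinset.mp (G'.equivFin.symm l).2, rfl⟩
    · rintro ⟨g, hg, rfl⟩
      refine ⟨G'.equivFin ⟨g, P.finG.mem_toFinset.mpr hg⟩, ?_⟩
      change E (G'.equivFin.symm (G'.equivFin ⟨g, _⟩)).1 = E g
      rw [Equiv.symm_apply_apply]
  refine ⟨Fintype.card P.V, G'.card, q, ?_, fun l => ⟨?_, fun m => ?_⟩, ?_⟩
  · rw [Nat.card_eq_fintype_card] at hP
    exact hP
  · exact (totalDegree_rename_le _ _).trans (P.deg _ (P.finG.mem_toFinset.mp (G'.equivFin.symm l).2))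
  · have h2 : m = Finsupp.mapDomain e (Finsupp.mapDomain e.symm m) := by
      rw [← Finsupp.mapDomain_comp]
      simp
    rw [h2]
    change coeff _ (rename e _) ∈ S
    rw [coeff_rename_mapDomain _ e.injective]
    exact P.coef _ (P.finG.mem_toFinset.mp (G'.equivFin.symm l).2) _
  · have h1 : Ideal.span (Set.range q) = Ideal.map (E : MvPolynomial P.V K →+* _) (Ideal.span P.G) := by
      rw [hr, Ideal.map_span]
      rfl
    have e1 : (MvPolynomial P.V K ⧸ Ideal.span P.G) ≃ₐ[K]
        (MvPolynomial (Fin (Fintype.card P.V)) K ⧸ Ideal.span (Set.range q)) :=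
      Ideal.quotientEquivAlg _ _ E h1
    have e2 : (MvPolynomial P.V K ⧸ RingHom.ker P.φ) ≃ₐ[K] A :=
      Ideal.quotientKerAlgEquivOfSurjective P.surj
    rw [P.ker] at e2
    exact ⟨e1.symm.trans e2⟩

end field

end Pool.Agent.L5helper68.SS
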