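import Pool.Agent.Z125.UN.Dim2

/-!
# The hypersurfaces `∑ w_l q_l(x) = 1` are smooth
-/

set_option autoImplicit false

open MvPolynomial Pool.Agent.Y116.UV AlgebraicGeometry CategoryTheory

namespace Pool.Agent.L5helper68.SS

/-- Jouanolou's ring is smooth over the ring of coefficients. -/
theorem jou_smooth {A : Type} [CommRing A] {m : ℕ} (f : Fin m → A) : Algebra.Smooth A (Jou f) where
  formallySmooth := by
    apply Algebra.FormallySmooth.of_comp_surjective
    intro B _ _ I hI g
    have hsur : Function.Surjective (Ideal.Quotient.mkₐ A I) := Ideal.Quotient.mkₐ_surjective A I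
    choose v hv using fun s => hsur (g (Ideal.Quotient.mk _ (X s)))
    let p : MvPolynomial (Fin m) A := ∑ l, C (f l) * X l
    have hp : ∀ u : Fin m → B, aeval u p = ∑ l, algebraMap A B (f l) * u l := by
      intro u
      change aeval u (∑ l, C (f l) * X l) = _
      simp only [map_sum, map_mul, aeval_X, algHom_C]
    have h1 : (Ideal.Quotient.mkₐ A I).comp (aeval v) =
        g.comp (Ideal.Quotient.mkₐ A (Ideal.span {p - 1})) := by
      apply MvPolynomial.algHom_ext
      intro s
      change Ideal.Quotient.mkₐ A I (aeval v (X s)) = _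
      rw [aeval_X]
      exact hv s
    have h2 : Ideal.Quotient.mkₐ A I (aeval v p - 1) = 0 := by
      have h3 := congrArg (fun f : MvPolynomial (Fin m) A →ₐ[A] B ⧸ I => f (p - 1)) h1
      change Ideal.Quotient.mkₐ A I (aeval v (p - 1)) = g (Ideal.Quotient.mk _ (p - 1)) at h3
      rw [Ideal.Quotient.eq_zero_iff_mem.mpr (Ideal.mem_span_singleton_self _), map_zero, map_sub,
        map_one] at h3
      exact h3
    have h4 : aeval v p - 1 ∈ I := Ideal.Quotient.eq_zero_iff_mem.mp h2
    let d : B := aeval v p - 1
    have h5 : d * d = 0 := by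
      have : d * d ∈ I ^ 2 := by
        rw [pow_two]
        exact Ideal.mul_mem_mul h4 h4
      rw [hI] at this
      exact this
    let w : Fin m → B := fun i => (1 - d) * v i
    have h6 : aeval w p = 1 := by
      have h7 : aeval w p = (1 - d) * aeval v p := by
        rw [hp, hp, Finset.mul_sum]
        apply Finset.sum_congr rfl
        intro i _
        change _ * ((1 - d) * v i) = _
        ring
      have h8 : aeval v p = 1 + d := by
        change _ = 1 + (aeval v p - 1)
        ring
      rw [h7, h8]
      linear_combination -h5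
    refine ⟨Ideal.Quotient.liftₐ _ (aeval w) ?_, ?_⟩
    · intro x hx
      have h9 : Ideal.span {p - 1} ≤ RingHom.ker (aeval w : MvPolynomial (Fin m) A →ₐ[A] B) := by
        rw [Ideal.span_le, Set.singleton_subset_iff]
        change aeval w (p - 1) = 0
        rw [map_sub, h6, map_one, sub_self]
      exact h9 hx
    · have hd : Ideal.Quotient.mkₐ A I d = 0 := h2
      apply Ideal.Quotient.algHom_ext
      apply MvPolynomial.algHom_ext
      intro i
      change Ideal.Quotient.mkₐ A I (aeval w (X i)) = g (Ideal.Quotient.mk _ (X i))
      rw [aeval_X]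
      change Ideal.Quotient.mkₐ A I ((1 - d) * v i) = _
      rw [map_mul, map_sub, hd, map_one, sub_zero, one_mul]
      exact hv _
  finitePresentation :=
    Algebra.FinitePresentation.quotient ⟨{∑ l, C (f l) * X l - 1}, by rw [Finset.coe_singleton]⟩

/-- The hypersurface `∑ w_l q_l(x) = 1` is smooth. -/
theorem smooth_jou {K : Type} [Field K] {n r : ℕ} (q : Fin r → MvPolynomial (Fin n) K) :
    Smooth (aff K (Jou q)).hom := by
  have h1 := jou_smooth q
  have h2 : Algebra.Smooth K (MvPolynomial (Fin n) K) :=
    { formallySmooth := inferInstance, finitePresentation := inferInstance }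
  exact Pool.Agent.Z125.UN.smooth_aff (Algebra.Smooth.comp K (MvPolynomial (Fin n) K) (Jou q))

end Pool.Agent.L5helper68.SS
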