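import Pool.Agent.L5helper68.SS.Clo
import Pool.Agent.L5helper68.SS.Smooth
import Pool.Agent.L5helper68.SS.GenD

/-!
# The cohomology of smooth projective schemes and of the hypersurfaces `∑ w_l q_l(x) = 1`
-/

set_option autoImplicit false

open CategoryTheory CategoryTheory.Limits AlgebraicGeometry Pool.Agent.Y116.UV Pool.Agent.Z125.UN
  Pool.Agent.L5helper68.GO Pool.Agent.L5helper68.AH

namespace Pool.Agent.L5helper68.SS

universe v u

variable {K : Type} [Field K] {C : Type u} [Category.{v} C] [Abelian C] [HasShift C ℤ]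

/-- `q` is a polynomial of degree at most two all of whose coefficients are `0`, `1` or elements of `G`. -/
def IsQuadric (G : Set K) {n : ℕ} (q : MvPolynomial (Fin n) K) : Prop :=
  q.totalDegree ≤ 2 ∧ ∀ m, q.coeff m = 0 ∨ q.coeff m = 1 ∨ q.coeff m ∈ G

/-- The hypersurface `∑ w_l q_l(x) = 1`, that is, the spectrum of `K[x, w] / (∑ w_l q_l(x) - 1)`. -/
noncomputable def cubic {n r : ℕ} (q : Fin r → MvPolynomial (Fin n) K) : Sch K := aff K (Jou q)

section compact

variable {Hc : Sch K → ℕ → C} (hH : IsCompactCohomology Hc)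

include hH

/-- the affine space -/
lemma space_zero (n j : ℕ) (hj : j < 2 * n) :
    IsZero (Hc (aff K (MvPolynomial (Fin n) K)) j) := by
  obtain ⟨-, h2⟩ := hH.bundle K (n + 1) (f1 K n) (aff K K) (𝟙 _) inferInstance (range_id n)
  have h3 := h2 j (by omega)
  obtain ⟨e⟩ := hH.iso (ft_aff True) ⟨(affIso (jouOne K n)).symm⟩ j
  exact h3.of_iso e.symm

/-- The cohomology of a closed subscheme of the affine space and of the corresponding hypersurface. -/
theorem jou_iso {n r : ℕ} (q : Fin r → MvPolynomial (Fin n) K) (j : ℕ) (hj : j + 1 < 2 * n) :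
    Nonempty (Hc (aff K (MvPolynomial (Fin n) K ⧸ Ideal.span (Set.range q))) j ≅
      (Hc (aff K (Jou q)) (j + 1 + 2 * (r - 1)))⟦((r - 1 : ℕ) : ℤ)⟧) := by
  let A := MvPolynomial (Fin n) K
  let f := affMap (Ideal.Quotient.mkₐ K (Ideal.span (Set.range q)))
  let g := opnMap (aff K A) (neOpen K q)
  have ht : IsTriple f g := by
    refine ⟨closed_affMap _ (Ideal.Quotient.mkₐ_surjective K _), inferInstance, ?_⟩
    change Set.range (affMap (Ideal.Quotient.mkₐ K (Ideal.span (Set.range q)))).left =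
      (Set.range (opnMap (aff K A) (neOpen K q)).left)ᶜ
    rw [range_affMap _ (Ideal.Quotient.mkₐ_surjective K _), range_opnMap]
    ext x
    change (∀ a, Ideal.Quotient.mk (Ideal.span (Set.range q)) a = 0 → a ∈ x.asIdeal) ↔
      ¬ ∃ l, q l ∉ x.asIdeal
    push Not
    constructor
    · intro h l
      exact h (q l) (Ideal.Quotient.eq_zero_iff_mem.mpr (Ideal.subset_span ⟨l, rfl⟩))
    · intro h a ha
      rw [Ideal.Quotient.eq_zero_iff_mem] at ha
      refine (Ideal.span_le.mpr ?_ : Ideal.span (Set.range q) ≤ x.asIdeal) ha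
      rintro _ ⟨l, rfl⟩
      exact h l
  obtain ⟨a, b, d, -, he⟩ := hH.localization f g (ft_aff True) ht
  obtain ⟨-, ⟨w1, h1⟩, w2, h2⟩ := he j
  have hz1 : IsZero (Hc (aff K A) j) := space_zero hH n j (by omega)
  have hz2 : IsZero (Hc (aff K A) (j + 1)) := space_zero hH n (j + 1) (by omega)
  have hm : Mono (d j) := h1.mono_g (hz1.eq_of_src _ _)
  have hp : Epi (d j) := h2.epi_f (hz2.eq_of_tgt _ _)
  have hi : IsIso (d j) := isIso_of_mono_of_epi _
  obtain ⟨h3, -⟩ := hH.bundle A r q (opn (aff K A) (neOpen K q)) g inferInstance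
    (range_opnMap _ _)
  obtain ⟨e⟩ := h3 (j + 1)
  have e2 := (shiftFunctor C ((r - 1 : ℕ) : ℤ)).mapIso e
  exact ⟨asIso (d j) ≪≫ (shiftNegShift (Hc (opn (aff K A) (neOpen K q)) (j + 1))
    ((r - 1 : ℕ) : ℤ)).symm ≪≫ e2.symm⟩

/-- The cohomology of an affine scheme. -/
theorem affine_iso {G : Set K} (hG : Subfield.closure G = ⊤) (A : Type) [CommRing A] [Algebra K A]
    [Algebra.FiniteType K A] (j : ℕ) :
    ∃ (n r : ℕ) (q : Fin r → MvPolynomial (Fin n) K), (∀ l, IsQuadric G (q l)) ∧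
      ∃ (i : ℕ) (m : ℤ), Nonempty (Hc (aff K A) j ≅ (Hc (cubic q) i)⟦m⟧) := by
  have h0 : (0 : K) ∈ insert 0 (insert 1 G) := Set.mem_insert _ _
  have h1 : (1 : K) ∈ insert 0 (insert 1 G) := Set.mem_insert_of_mem _ (Set.mem_insert _ _)
  obtain ⟨n, r, q, hn, hq, ⟨e⟩⟩ := quadratic_gen h0 h1 hG
    (fun _ hx => Set.mem_insert_of_mem _ (Set.mem_insert_of_mem _ hx)) A (j + 2)
  obtain ⟨e1⟩ := jou_iso hH q j (by omega)
  obtain ⟨e2⟩ := hH.iso (ft_aff True) ⟨affIso e⟩ j
  exact ⟨n, r, q, hq, _, _, ⟨e2 ≪≫ e1⟩⟩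

end compact

/-- The standard properties of a cohomology with compact support with a notion of pure objects.

* `compact`: see `IsCompactCohomology`;
* `jouanolou`: for a smooth projective `X` there is an affine scheme `Spec A` of finite type over `K` (the
  total space of an affine bundle over `X` of some rank `e`, Jouanolou) whose cohomology is the one of `X`,
  shifted by `2e` and twisted by `-e`;
* `pure_iso`, `pure_twist`, `pure_proj`: purity is invariant under isomorphisms and Tate twists, and the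
  cohomology of smooth projective schemes is pure;
* `pure_sub`: if the cohomology group `Hc X j` of some `X` is pure, then it is a subquotient of a Tate
  twist of a cohomology group of a smooth projective scheme (Deligne). -/
structure IsPureCohomology (Hc : Sch K → ℕ → C) (Pure : C → Prop) : Prop where
  compact : IsCompactCohomology Hc
  jouanolou : ∀ X : Sch K, SmoothProjective X → ∃ (A : Type) (_ : CommRing A) (_ : Algebra K A)
    (_ : Algebra.FiniteType K A) (e : ℕ), ∀ j : ℕ,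
      Nonempty (Hc (aff K A) (j + 2 * e) ≅ (Hc X j)⟦-(e : ℤ)⟧)
  pure_iso : ∀ {M N : C}, (M ≅ N) → Pure M → Pure N
  pure_twist : ∀ (M : C) (n : ℤ), Pure M → Pure (M⟦n⟧)
  pure_proj : ∀ X : Sch K, SmoothProjective X → ∀ j : ℕ, Pure (Hc X j)
  pure_sub : ∀ X : Sch K, FT True X → ∀ j : ℕ, Pure (Hc X j) →
    ∃ Y : Sch K, SmoothProjective Y ∧ ∃ (i : ℕ) (m : ℤ), IsSubquotient (Hc X j) ((Hc Y i)⟦m⟧)

section main

variable {Hc : Sch K → ℕ → C} {Pure : C → Prop} (hH : IsPureCohomology Hc Pure)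

include hH

theorem proj_iso {G : Set K} (hG : Subfield.closure G = ⊤) {X : Sch K} (hX : SmoothProjective X)
    (j : ℕ) : ∃ (n r : ℕ) (q : Fin r → MvPolynomial (Fin n) K), (∀ l, IsQuadric G (q l)) ∧
      ∃ (i : ℕ) (m : ℤ), Nonempty (Hc X j ≅ (Hc (cubic q) i)⟦m⟧) := by
  obtain ⟨A, _, _, _, e, h⟩ := hH.jouanolou X hX
  obtain ⟨f⟩ := h j
  obtain ⟨n, r, q, hq, i, m, ⟨g⟩⟩ := affine_iso hH.compact hG A (j + 2 * e)
  refine ⟨n, r, q, hq, i, m + e, ⟨?_⟩⟩
  exact (shiftNegShift (Hc X j) (e : ℤ)).symm ≪≫ (shiftFunctor C (e : ℤ)).mapIso (f.symm ≪≫ g) ≪≫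
    ((shiftFunctorAdd C m (e : ℤ)).app _).symm

omit hH

lemma sos_shift [∀ n : ℤ, (shiftFunctor C n).Additive] {M : C} (h : SumOfSimples M) (n : ℤ) :
    SumOfSimples (M⟦n⟧) := by
  induction h with
  | zero hM => exact .zero ((shiftFunctor C n).map_isZero hM)
  | @add S M N hS _ e ih =>
    have := preservesBinaryBiproducts_of_preservesBiproducts (shiftFunctor C n)
    exact .add (simple_shift S n) ih ((shiftFunctor C n).mapIso e ≪≫
      (shiftFunctor C n).mapBiprod S M)

include hH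

theorem semisimple_iff [∀ n : ℤ, (shiftFunctor C n).Additive] {G : Set K}
    (hG : Subfield.closure G = ⊤) :
    (∀ X : Sch K, SmoothProjective X → ∀ j : ℕ, SumOfSimples (Hc X j)) ↔
      ∀ (n r : ℕ) (q : Fin r → MvPolynomial (Fin n) K), (∀ l, IsQuadric G (q l)) →
        ∀ i : ℕ, Pure (Hc (cubic q) i) → SumOfSimples (Hc (cubic q) i) := by
  constructor
  · intro h n r q _ i hp
    have hft : Algebra.FiniteType K (Jou q) :=
      Algebra.FiniteType.trans (S := MvPolynomial (Fin n) K) inferInstance inferInstance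
    obtain ⟨Y, hY, k, m, hs⟩ := hH.pure_sub _ (ft_aff True) i hp
    exact sos_subquotient (sos_shift (h Y hY k) m) hs
  · intro h X hX j
    obtain ⟨n, r, q, hq, i, m, ⟨e⟩⟩ := proj_iso hH hG hX j
    have h1 : Pure ((Hc (cubic q) i)⟦m⟧) := hH.pure_iso e (hH.pure_proj X hX j)
    have h2 : Pure (Hc (cubic q) i) :=
      hH.pure_iso (shiftShiftNeg _ m) (hH.pure_twist _ (-m) h1)
    exact sos_iso e.symm (sos_shift (h n r q hq i h2) m)

end main

end Pool.Agent.L5helper68.SS
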