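import Pool.Agent.Y116.UV.Pres

/-!
# Presentations by quadratic polynomials
-/

set_option autoImplicit false

open MvPolynomial Pool.Agent.Y116.UV

namespace Pool.Agent.L5helper68.SS

variable {R : Type} [CommRing R]

lemma tdX {V : Type} (i : V) : (X i : MvPolynomial V R).totalDegree ≤ 1 := by
  rcases subsingleton_or_nontrivial R with h | h
  · rw [Subsingleton.elim (X i : MvPolynomial V R) 0, totalDegree_zero]
    exact Nat.zero_le _
  · rw [totalDegree_X]

/-- A finite presentation by polynomials of degree at most two. -/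
structure QP (R : Type) [CommRing R] (A : Type) [CommRing A] [Algebra R A] where
  V : Type
  fin : Finite V
  φ : MvPolynomial V R →ₐ[R] A
  G : Set (MvPolynomial V R)
  finG : G.Finite
  surj : Function.Surjective φ
  ker : RingHom.ker φ = Ideal.span G
  deg : ∀ g ∈ G, g.totalDegree ≤ 2

variable {A : Type} [CommRing A] [Algebra R A]

/-- The values of the variables. -/
def QP.marks (P : QP R A) : Set A := Set.range fun v => P.φ (X v)

section

variable (P : QP R A) (q : MvPolynomial P.V R)

/-- the homomorphism with one more variable -/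
noncomputable def qφ : MvPolynomial (Option P.V) R →ₐ[R] A :=
  aeval fun o => o.elim (P.φ q) fun v => P.φ (X v)

/-- the new set of relations -/
def qG : Set (MvPolynomial (Option P.V) R) := (rename some '' P.G) ∪ {X none - rename some q}

lemma qφ_rename (p : MvPolynomial P.V R) : qφ P q (rename some p) = P.φ p := by
  have h : (qφ P q).comp (rename some) = P.φ := by
    apply MvPolynomial.algHom_ext
    intro v
    rw [AlgHom.comp_apply, rename_X, qφ, aeval_X]
    rfl
  exact DFunLike.congr_fun h p

lemma qφ_none : qφ P q (X none) = P.φ q := by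
  rw [qφ, aeval_X]
  rfl

lemma qφ_some (v : P.V) : qφ P q (X (some v)) = P.φ (X v) := by
  rw [qφ, aeval_X]
  rfl

lemma qren_mem {p : MvPolynomial P.V R} (hp : P.φ p = 0) : rename some p ∈ Ideal.span (qG P q) := by
  have h0 : p ∈ Ideal.span P.G := by
    rw [← P.ker]
    exact hp
  have h1 : Ideal.map (rename some : MvPolynomial P.V R →ₐ[R] _).toRingHom (Ideal.span P.G) ≤
      Ideal.span (qG P q) := by
    rw [Ideal.map_span]
    exact Ideal.span_mono fun x hx => Or.inl hx
  exact h1 (Ideal.mem_map_of_mem (rename some : MvPolynomial P.V R →ₐ[R] _).toRingHom h0)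

lemma qspan_le_ker : Ideal.span (qG P q) ≤ RingHom.ker (qφ P q) := by
  rw [Ideal.span_le]
  rintro x (⟨y, hy, rfl⟩ | rfl)
  · change qφ P q (rename some y) = 0
    rw [qφ_rename]
    have : y ∈ RingHom.ker P.φ := by
      rw [P.ker]
      exact Ideal.subset_span hy
    exact this
  · change qφ P q (X none - rename some q) = 0
    rw [map_sub, qφ_none, qφ_rename, sub_self]

lemma qker : RingHom.ker (qφ P q) = Ideal.span (qG P q) := by
  apply le_antisymm
  · intro p hp
    let J := Ideal.span (qG P q)
    let ψ : MvPolynomial (Option P.V) R →ₐ[R] MvPolynomial P.V R :=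
      aeval fun o => o.elim q X
    have h2 : Ideal.Quotient.mkₐ R J = ((Ideal.Quotient.mkₐ R J).comp (rename some)).comp ψ := by
      apply MvPolynomial.algHom_ext
      intro o
      rw [AlgHom.comp_apply, AlgHom.comp_apply]
      have h3 : ψ (X o) = o.elim q X := aeval_X _ _
      rw [h3]
      match o with
      | none =>
        have h4 : Ideal.Quotient.mkₐ R J (X none - rename some q) = 0 :=
          Ideal.Quotient.eq_zero_iff_mem.mpr (Ideal.subset_span (Or.inr rfl))
        rw [map_sub, sub_eq_zero] at h4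
        exact h4
      | some v =>
        change _ = Ideal.Quotient.mkₐ R J (rename some (X v))
        rw [rename_X]
    have h3 : p - rename some (ψ p) ∈ J := by
      rw [← Ideal.Quotient.eq_zero_iff_mem, map_sub, sub_eq_zero]
      exact DFunLike.congr_fun h2 p
    have h4 : qφ P q (p - rename some (ψ p)) = 0 := qspan_le_ker P q h3
    have h5 : P.φ (ψ p) = 0 := by
      rw [map_sub, qφ_rename] at h4
      have : qφ P q p = 0 := hp
      rw [this, zero_sub, neg_eq_zero] at h4
      exact h4
    have h7 := J.add_mem h3 (qren_mem P q h5)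
    rwa [sub_add_cancel] at h7
  · exact qspan_le_ker P q

/-- The presentation with one more variable with the value `q`. -/
noncomputable def QP.ext (hq : q.totalDegree ≤ 2) : QP R A where
  V := Option P.V
  fin := by
    have := P.fin
    infer_instance
  φ := qφ P q
  G := qG P q
  finG := (P.finG.image _).union (Set.finite_singleton _)
  surj := fun a => by
    obtain ⟨p, hp⟩ := P.surj a
    exact ⟨rename some p, by rw [qφ_rename, hp]⟩
  ker := qker P q
  deg := by
    rintro x (⟨y, hy, rfl⟩ | rfl)
    · exact (totalDegree_rename_le _ _).trans (P.deg y hy)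
    · refine (totalDegree_sub _ _).trans (max_le ?_ ((totalDegree_rename_le _ _).trans hq))
      exact (tdX _).trans (by norm_num)

lemma qext_marks (hq : q.totalDegree ≤ 2) : P.marks ⊆ (P.ext q hq).marks := by
  rintro _ ⟨v, rfl⟩
  exact ⟨some v, qφ_some P q v⟩

lemma qext_mem (hq : q.totalDegree ≤ 2) : P.φ q ∈ (P.ext q hq).marks := ⟨none, qφ_none P q⟩

end

/-- The elements which can be made values of variables in all presentations extending `P0`. -/
def QS (P0 : QP R A) : Set A :=
  {a | ∀ P : QP R A, P0.marks ⊆ P.marks → ∃ P' : QP R A, P.marks ⊆ P'.marks ∧ a ∈ P'.marks}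

variable {P0 : QP R A}

lemma qs_mark {a : A} (h : a ∈ P0.marks) : a ∈ QS P0 := fun P hP => ⟨P, le_rfl, hP h⟩

lemma qs_mul {a b : A} (ha : a ∈ QS P0) (hb : b ∈ QS P0) : a * b ∈ QS P0 := by
  intro P hP
  obtain ⟨P1, k1, i, hi⟩ := ha P hP
  obtain ⟨P2, k2, j, hj⟩ := hb P1 (hP.trans k1)
  obtain ⟨i', hi'⟩ := k2 ⟨i, hi⟩
  have hq : (X i' * X j : MvPolynomial P2.V R).totalDegree ≤ 2 :=
    (totalDegree_mul _ _).trans (add_le_add (tdX _) (tdX _))
  refine ⟨P2.ext _ hq, k1.trans (k2.trans (qext_marks P2 _ hq)), ?_⟩
  have h3 := qext_mem P2 _ hq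
  rw [map_mul] at h3
  have h5 : P2.φ (X i') * P2.φ (X j) = a * b := congrArg₂ (· * ·) hi' hj
  rwa [h5] at h3

lemma qs_add {a b : A} (ha : a ∈ QS P0) (hb : b ∈ QS P0) : a + b ∈ QS P0 := by
  intro P hP
  obtain ⟨P1, k1, i, hi⟩ := ha P hP
  obtain ⟨P2, k2, j, hj⟩ := hb P1 (hP.trans k1)
  obtain ⟨i', hi'⟩ := k2 ⟨i, hi⟩
  have hq : (X i' + X j : MvPolynomial P2.V R).totalDegree ≤ 2 :=
    (totalDegree_add _ _).trans (max_le ((tdX _).trans (by norm_num))
      ((tdX _).trans (by norm_num)))
  refine ⟨P2.ext _ hq, k1.trans (k2.trans (qext_marks P2 _ hq)), ?_⟩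
  have h3 := qext_mem P2 _ hq
  rw [map_add] at h3
  have h5 : P2.φ (X i') + P2.φ (X j) = a + b := congrArg₂ (· + ·) hi' hj
  rwa [h5] at h3

lemma qs_const (s : R) : algebraMap R A s ∈ QS P0 := by
  intro P hP
  have hq : (C s : MvPolynomial P.V R).totalDegree ≤ 2 := by
    rw [totalDegree_C]
    norm_num
  refine ⟨P.ext _ hq, qext_marks P _ hq, ?_⟩
  have h3 := qext_mem P _ hq
  have h4 : P.φ (C s) = algebraMap R A s := AlgHom.commutes P.φ s
  rwa [h4] at h3

/-- The presentation of a polynomial ring. -/
noncomputable def qbase (R : Type) [CommRing R] (n : ℕ) : QP R (MvPolynomial (Fin n) R) where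
  V := Fin n
  fin := inferInstance
  φ := AlgHom.id R _
  G := ∅
  finG := Set.finite_empty
  surj := fun q => ⟨q, rfl⟩
  ker := by
    rw [Ideal.span_empty]
    ext x
    rfl
  deg := by simp

lemma qs_all (n : ℕ) (f : MvPolynomial (Fin n) R) : f ∈ QS (qbase R n) := by
  induction f using MvPolynomial.induction_on with
  | C r => exact qs_const r
  | add p q hp hq => exact qs_add hp hq
  | mul_X p i hp => exact qs_mul hp (qs_mark ⟨i, rfl⟩)

lemma qs_set (n : ℕ) (F : Finset (MvPolynomial (Fin n) R)) :
    ∃ P : QP R (MvPolynomial (Fin n) R), ∀ f ∈ F, f ∈ P.marks := by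
  classical
  have key : ∃ P : QP R (MvPolynomial (Fin n) R), (qbase R n).marks ⊆ P.marks ∧
      ∀ f ∈ F, f ∈ P.marks := by
    induction F using Finset.induction_on with
    | empty => exact ⟨qbase R n, le_rfl, by simp⟩
    | insert f F _ ih =>
      obtain ⟨P, h1, h2⟩ := ih
      obtain ⟨P', h3, h4⟩ := qs_all n f P h1
      refine ⟨P', h1.trans h3, fun g hg => ?_⟩
      rcases Finset.mem_insert.mp hg with rfl | hg
      · exact h4
      · exact h3 (h2 g hg)
  obtain ⟨P, -, h⟩ := key
  exact ⟨P, h⟩

/-- Every algebra of finite type over a noetherian ring has a presentation by polynomials of degree at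
most two. -/
theorem exists_QP [IsNoetherianRing R] (A : Type) [CommRing A] [Algebra R A]
    [Algebra.FiniteType R A] : Nonempty (QP R A) := by
  classical
  obtain ⟨n, π, hπ⟩ := Algebra.FiniteType.iff_quotient_mvPolynomial''.mp
    (inferInstance : Algebra.FiniteType R A)
  obtain ⟨F, hF⟩ := (isNoetherianRing_iff_ideal_fg _).mp
    (inferInstance : IsNoetherianRing (MvPolynomial (Fin n) R)) (RingHom.ker π)
  obtain ⟨P, hP⟩ := qs_set n F
  by_cases hne : Nonempty P.V
  · choose! v hv using hP
    exact ⟨{
      V := P.V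
      fin := P.fin
      φ := π.comp P.φ
      G := P.G ∪ (fun f => X (v f)) '' (F : Set (MvPolynomial (Fin n) R))
      finG := P.finG.union (F.finite_toSet.image _)
      surj := fun a => by
        obtain ⟨b, rfl⟩ := hπ a
        obtain ⟨c, rfl⟩ := P.surj b
        exact ⟨c, rfl⟩
      ker := by
        have h1 : RingHom.ker (π.comp P.φ) = Ideal.comap (P.φ : MvPolynomial P.V R →+* _)
            (RingHom.ker π) := rfl
        have h2 : RingHom.ker π = Ideal.map (P.φ : MvPolynomial P.V R →+* _)
            (Ideal.span ((fun f => X (v f)) '' (F : Set (MvPolynomial (Fin n) R)))) := by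
          rw [Ideal.map_span, ← hF, Set.image_image]
          congr 1
          ext x
          constructor
          · intro hx
            exact ⟨x, hx, hv x hx⟩
          · rintro ⟨y, hy, rfl⟩
            have : (P.φ : MvPolynomial P.V R →+* _) (X (v y)) = y := hv y hy
            change (P.φ : MvPolynomial P.V R →+* MvPolynomial (Fin n) R) (X (v y)) ∈ _
            rw [this]
            exact hy
        have h3 : RingHom.ker (P.φ : MvPolynomial P.V R →+* MvPolynomial (Fin n) R) =
            Ideal.span P.G := P.ker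
        rw [h1, h2, Ideal.comap_map_of_surjective'
          (P.φ : MvPolynomial P.V R →+* MvPolynomial (Fin n) R) P.surj, Ideal.span_union, sup_comm,
          h3]
      deg := by
        rintro g (hg | ⟨f, _, rfl⟩)
        · exact P.deg g hg
        · exact (tdX _).trans (by norm_num) }⟩
  · have hF0 : F = ∅ := by
      rw [Finset.eq_empty_iff_forall_notMem]
      intro f hf
      obtain ⟨v, -⟩ := hP f hf
      exact hne ⟨v⟩
    exact ⟨{
      V := Fin n
      fin := inferInstance
      φ := π
      G := ∅
      finG := Set.finite_empty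
      surj := hπ
      ker := by rw [← hF, hF0, Finset.coe_empty]
      deg := by simp }⟩

/-- The number of variables can be arbitrarily large. -/
theorem exists_large [IsNoetherianRing R] (A : Type) [CommRing A] [Algebra R A]
    [Algebra.FiniteType R A] (N : ℕ) : ∃ P : QP R A, N ≤ Nat.card P.V := by
  induction N with
  | zero =>
    obtain ⟨P⟩ := exists_QP (R := R) A
    exact ⟨P, Nat.zero_le _⟩
  | succ N ih =>
    obtain ⟨P, hP⟩ := ih
    refine ⟨P.ext 0 (by simp), ?_⟩
    have := P.fin
    change N + 1 ≤ Nat.card (Option P.V)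
    rw [Finite.card_option]
    omega

/-- Every algebra of finite type is the quotient of a polynomial ring in `n ≥ N` variables by finitely
many polynomials of degree at most two. -/
theorem quadratic [IsNoetherianRing R] (A : Type) [CommRing A] [Algebra R A]
    [Algebra.FiniteType R A] (N : ℕ) : ∃ (n r : ℕ) (q : Fin r → MvPolynomial (Fin n) R), N ≤ n ∧
      (∀ l, (q l).totalDegree ≤ 2) ∧
      Nonempty ((MvPolynomial (Fin n) R ⧸ Ideal.span (Set.range q)) ≃ₐ[R] A) := by
  classical
  obtain ⟨P, hP⟩ := exists_large (R := R) A N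
  have := P.fin
  have := Fintype.ofFinite P.V
  let e : P.V ≃ Fin (Fintype.card P.V) := Fintype.equivFin P.V
  let E : MvPolynomial P.V R ≃ₐ[R] MvPolynomial (Fin (Fintype.card P.V)) R := renameEquiv R e
  let G' := P.finG.toFinset
  let q : Fin G'.card → MvPolynomial (Fin (Fintype.card P.V)) R := fun l => E (G'.equivFin.symm l).1
  have hr : Set.range q = E '' P.G := by
    ext x
    constructor
    · rintro ⟨l, rfl⟩
      exact ⟨_, P.finG.mem_toFinset.mp (G'.equivFin.symm l).2, rfl⟩
    · rintro ⟨g, hg, rfl⟩
      refine ⟨G'.equivFin ⟨g, P.finG.mem_toFinset.mpr hg⟩, ?_⟩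
      change E (G'.equivFin.symm (G'.equivFin ⟨g, _⟩)).1 = E g
      rw [Equiv.symm_apply_apply]
  refine ⟨Fintype.card P.V, G'.card, q, ?_, ?_, ?_⟩
  · rw [Nat.card_eq_fintype_card] at hP
    exact hP
  · intro l
    exact (totalDegree_rename_le _ _).trans (P.deg _ (P.finG.mem_toFinset.mp (G'.equivFin.symm l).2))
  · have h1 : Ideal.span (Set.range q) = Ideal.map (E : MvPolynomial P.V R →+* _) (Ideal.span P.G) := by
      rw [hr, Ideal.map_span]
      rfl
    have e1 : (MvPolynomial P.V R ⧸ Ideal.span P.G) ≃ₐ[R]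
        (MvPolynomial (Fin (Fintype.card P.V)) R ⧸ Ideal.span (Set.range q)) :=
      Ideal.quotientEquivAlg _ _ E h1
    have e2 : (MvPolynomial P.V R ⧸ RingHom.ker P.φ) ≃ₐ[R] A :=
      Ideal.quotientKerAlgEquivOfSurjective P.surj
    rw [P.ker] at e2
    exact ⟨e1.symm.trans e2⟩

end Pool.Agent.L5helper68.SS
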